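import Pool.Agent.H27.L1.H68.GHK.Targets
import Pool.Agent.H27.L1.H37.GHY.CRD

/-!
# CRH: the size of the family, with the weights (board ghk)
-/

set_option autoImplicit false

namespace Pool.Agent.H27.L1.H37.GHK

open MeasureTheory Pool.Agent.H27.L1.H34.GM Pool.Agent.H27.L1.H34.GZ Pool.Agent.H27.L1.H34.GU Pool.Agent.H27.L1.H34.GA
open Pool.Agent.H27.L1.H68.GHY Pool.Agent.H27.L1.H34.GHY Pool.Agent.H27.L1.H68.GHK

/-- a form of norm one is not identically zero -/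
theorem nz_of {m N : ℕ} [NeZero N] (hm1 : 1 ≤ m) {D : Set (V m)} (hD : DomZ m D)
    {F : Mat m → VN m N → ℂ} (h : nU D F = 1) :
    ∃ g x, g.det ≠ 0 ∧ F g x ≠ 0 := by
  by_contra hcon
  push Not at hcon
  have hz : ∀ z ∈ D, ∀ x, F (mt z) x = 0 := by
    intro z hz x
    refine hcon _ x ?_
    intro h0
    have h1 := (hD.shell z hz).1
    unfold aN at h1
    rw [h0, abs_zero, Real.zero_rpow (by positivity)] at h1
    linarith
  have h0 : nU D F = 0 := by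
    unfold nU
    refine Finset.sum_eq_zero fun x _ => ?_
    refine setIntegral_eq_zero_of_forall_eq_zero ?_
    intro z hz'
    rw [hz z hz' x]
    simp
  rw [h0] at h
  exact zero_ne_one h

theorem hn_nonneg {m N : ℕ} [NeZero N] (r : ℝ) (D : Set (V m)) (F : Mat m → VN m N → ℂ) :
    0 ≤ Hn r D F := by
  unfold Hn
  exact integral_nonneg fun _ => by positivity

theorem pf_CRH (hL : T_LTH) : T_CRH := by
  intro m hm1 r ε hr hε
  obtain ⟨c, C, K, hc, hC, H⟩ := hL m hm1 r (ε / 2) hr (half_pos hε)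
  obtain ⟨C1, hC1, hlog⟩ := Pool.Agent.H27.L1.H37.GHY.log_pow_le K (half_pos hε)
  refine ⟨c, C * C1 * 2 ^ m, hc, by positivity, ?_⟩
  intro N _ T D hS ι _ _ F lam P hF hO δ hδ hδ' hP
  have hN : (1 : ℝ) ≤ N := by exact_mod_cast NeZero.one_le
  have hN0 : (0 : ℝ) < N := by linarith
  have hδi : 0 < δ⁻¹ := inv_pos.2 hδ
  have hδ2 : (2 : ℝ) ≤ δ⁻¹ := by
    rw [le_inv_comm₀ (by norm_num) hδ]
    linarith
  let a : ℕ → ℂ := fun n => if n = 1 then 1 else 0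
  have ha : Coe 1 a := by
    constructor
    · intro n
      show ‖(if n = 1 then (1 : ℂ) else 0)‖ ≤ 1
      split_ifs <;> simp
    · intro n hn
      have : n = 1 := by
        by_contra h
        exact hn (if_neg h)
      subst this
      norm_num
  have h1 := H N T D hS ι F lam P hF hO δ hδ hδ' hP 1 a le_rfl ha
  have hlam : ∀ i, lam i 1 = 1 := by
    intro i
    obtain ⟨g, x, hg, hx⟩ := nz_of hm1 hS.dom (hO.one i)
    exact Pool.Agent.H27.L1.H37.GHY.lam_one hS.reps (hF i).1.toHecA hg hx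
  have hDP : ∀ i t, DP m (lam i) a 1 t = 1 := by
    intro i t
    unfold DP tl
    rw [Nat.floor_one, Finset.Icc_self, Finset.sum_singleton, hlam i]
    simp [a]
  have hH : ∀ i, 0 ≤ (Hn r D (F i))⁻¹ := fun i => inv_nonneg.2 (hn_nonneg r D (F i))
  have h2 : ∀ i, ENNReal.ofReal (Hn r D (F i))⁻¹ *
      ∫⁻ t in Set.Icc (-δ⁻¹) δ⁻¹, ENNReal.ofReal (‖DP m (lam i) a 1 t‖ ^ 4) =
      ENNReal.ofReal ((Hn r D (F i))⁻¹ * (2 * δ⁻¹)) := by
    intro i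
    simp only [hDP, norm_one, one_pow, ENNReal.ofReal_one]
    rw [setLIntegral_one, Real.volume_Icc, ← ENNReal.ofReal_mul (hH i)]
    congr 2
    ring
  rw [Finset.sum_congr rfl fun i _ => h2 i,
    ← ENNReal.ofReal_sum_of_nonneg fun i _ => mul_nonneg (hH i) (by positivity),
    ← Finset.sum_mul] at h1
  have hz1 : 1 ≤ (N : ℝ) * δ⁻¹ := by nlinarith
  have hB : 0 ≤ C * δ⁻¹ ^ (m ^ 2) * (N : ℝ) ^ ((m : ℝ) + ε / 2) *
        (1 + Real.log (1 * N * δ⁻¹)) ^ K * 1 ^ (2 * m) * (1 + δ ^ m * 1 ^ 2 / N) ^ m := by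
    have h5 : 0 ≤ 1 + Real.log (1 * N * δ⁻¹) := by
      have := Real.log_nonneg (show (1 : ℝ) ≤ 1 * N * δ⁻¹ by rw [one_mul]; exact hz1)
      linarith
    positivity
  have h3 := (ENNReal.ofReal_le_ofReal_iff hB).1 h1
  have h4 : (∑ i, (Hn r D (F i))⁻¹) * δ⁻¹ ≤ (∑ i, (Hn r D (F i))⁻¹) * (2 * δ⁻¹) := by
    have h5 : (0 : ℝ) ≤ ∑ i, (Hn r D (F i))⁻¹ := Finset.sum_nonneg fun i _ => hH i
    nlinarith [mul_nonneg h5 hδi.le]
  refine h4.trans (h3.trans ?_)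
  have h5 : (1 + Real.log (1 * N * δ⁻¹)) ^ K ≤ C1 * ((N : ℝ) * δ⁻¹) ^ (ε / 2) := by
    rw [one_mul]
    exact hlog _ hz1
  have h6 : (1 + δ ^ m * 1 ^ 2 / N) ^ m ≤ (2 : ℝ) ^ m := by
    refine pow_le_pow_left₀ (by positivity) ?_ m
    have h7 : δ ^ m ≤ 1 := pow_le_one₀ hδ.le (by linarith)
    have h8 : δ ^ m * 1 ^ 2 / N ≤ 1 := by
      rw [div_le_one hN0]
      linarith
    linarith
  have h7 : (N : ℝ) ^ ((m : ℝ) + ε / 2) ≤ (N : ℝ) ^ m * ((N : ℝ) * δ⁻¹) ^ (ε / 2) := by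
    rw [Real.rpow_add hN0, Real.rpow_natCast]
    refine mul_le_mul_of_nonneg_left ?_ (by positivity)
    refine Real.rpow_le_rpow hN0.le ?_ (half_pos hε).le
    nlinarith
  have hE : ((N : ℝ) * δ⁻¹) ^ (ε / 2) * ((N : ℝ) * δ⁻¹) ^ (ε / 2) = ((N : ℝ) * δ⁻¹) ^ ε := by
    rw [← Real.rpow_add (by linarith), add_halves]
  have h8 : 0 ≤ 1 + Real.log (1 * N * δ⁻¹) := by
    have := Real.log_nonneg (show (1 : ℝ) ≤ 1 * N * δ⁻¹ by rw [one_mul]; exact hz1)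
    linarith
  calc C * δ⁻¹ ^ (m ^ 2) * (N : ℝ) ^ ((m : ℝ) + ε / 2) *
        (1 + Real.log (1 * N * δ⁻¹)) ^ K * 1 ^ (2 * m) * (1 + δ ^ m * 1 ^ 2 / N) ^ m
      ≤ C * δ⁻¹ ^ (m ^ 2) * ((N : ℝ) ^ m * ((N : ℝ) * δ⁻¹) ^ (ε / 2)) *
        (C1 * ((N : ℝ) * δ⁻¹) ^ (ε / 2)) * 1 ^ (2 * m) * 2 ^ m := by
        gcongr
    _ = C * C1 * 2 ^ m * (((N : ℝ) * δ⁻¹) ^ (ε / 2) * ((N : ℝ) * δ⁻¹) ^ (ε / 2)) *
        (N : ℝ) ^ m * δ⁻¹ ^ (m ^ 2) := by
        rw [one_pow]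
        ring
    _ = _ := by rw [hE]

end Pool.Agent.H27.L1.H37.GHK
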